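import Pool.Agent.H86.Y7

set_option autoImplicit false

namespace Pool.Agent.Results.MP_56b8f5_nt.JointMomentsAtDistances

open Complex MeasureTheory Set
open scoped ENNReal

/-- `m(t)`: the weighted mean of `|ζ(1/2 + i(t + u))|^2` over `u` at the scale `1 / log T`. -/
noncomputable def localSq (N : ℕ) (T t : ℝ) : ℝ≥0∞ :=
  ∫⁻ u : ℝ, ENNReal.ofReal (‖riemannZeta (1 / 2 + I * (t + u))‖ ^ 2 * (Real.log T / (1 + Real.log T * |u|) ^ N))

/-- The pairs `i < j` of indices. -/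
abbrev Pairs (k : ℕ) := {p : Fin k × Fin k // p.1 < p.2}

/-- The height `T (β_p ⟨x_i, x_j⟩ + f_p(x_i) + g_p(x_j))` attached to the pair `p = (i, j)` and the points `x`. -/
noncomputable def height {k d : ℕ} (T : ℝ) (β : Pairs k → ℝ) (f g : Pairs k → (Fin d → ℝ) → ℝ) (p : Pairs k)
    (x : Fin k → Fin d → ℝ) : ℝ :=
  T * (β p * (∑ l, x p.1.1 l * x p.1.2 l) + f p (x p.1.1) + g p (x p.1.2))

/-- Joint moments of the zeta function at the heights given by all the mutual inner products (plus arbitrary functions of each of the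
two points), or all the mutual squared distances, of `k` points which vary independently in arbitrary sets or measures in `[0,1]^d` of
dimension greater than `d / 2`: the mean value of `∏ m(t_ij)^(q_ij)` is at least `c (log T)^(∑ q_ij^2)`, the order of magnitude of the
product of the corresponding moments of the zeta function over `[T, 2T]`. The exponents `q_ij ≥ 0` are arbitrary, so that the pairs
with `q_ij ≥ 1` are the edges of an arbitrary graph, and the conditions bear on these only. -/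
theorem result (d k N : ℕ) (q : Pairs k → ℕ) (ε : ℝ) (hd : 1 ≤ d) (hε : 0 < ε) :
    ∃ c : ℝ, 0 < c ∧ ∀ D : ℝ, 1 ≤ D → ∃ T₀ : ℝ, ∀ T : ℝ, T₀ ≤ T →
      -- measures
      (∀ μ : Fin k → Measure (Fin d → ℝ), (∀ i, IsProbabilityMeasure (μ i)) → (∀ i, ∀ᵐ x ∂(μ i), ∀ l, 0 ≤ x l ∧ x l ≤ 1) →
        ∀ A : Fin k → ℝ, (∀ i, 0 ≤ A i) →
        (∀ i, ∀ u : Fin d → ℝ, μ i {x | ∀ l, |x l - u l| ≤ 1 / T} ≤ ENNReal.ofReal (A i)) →
        (∀ p : Pairs k, 1 ≤ q p → A p.1.1 * A p.1.2 ≤ T ^ (-(d + ε))) →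
        ∀ (β : Pairs k → ℝ) (f g : Pairs k → (Fin d → ℝ) → ℝ), (∀ p, 1 ≤ q p → 1 / D ≤ |β p| ∧ |β p| ≤ D) →
        (∀ p, Measurable (f p)) → (∀ p, Measurable (g p)) →
        (∀ᵐ x ∂(Measure.pi μ), ∀ p, 1 ≤ q p → height T β f g p x ∈ Icc (T / D) (D * T)) →
        ENNReal.ofReal (c * Real.log T ^ (∑ p, q p ^ 2)) ≤
          ∫⁻ x, ∏ p, (localSq N T (height T β f g p x)) ^ q p ∂(Measure.pi μ)) ∧
      -- finite sets
      (∀ X : Fin k → Finset (Fin d → ℝ), (∀ i, ∀ x ∈ X i, ∀ l, 0 ≤ x l ∧ x l ≤ 1) →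
        (∀ i, ∀ u : Fin d → ℝ, ∀ Y ⊆ X i, (∀ x ∈ Y, ∀ l, |x l - u l| ≤ 1 / T) → (Y.card : ℝ) ≤ D) →
        (∀ p : Pairs k, 1 ≤ q p → T ^ (d + ε) ≤ ((X p.1.1).card : ℝ) * (X p.1.2).card) →
        ∀ (β : Pairs k → ℝ) (f g : Pairs k → (Fin d → ℝ) → ℝ), (∀ p, 1 ≤ q p → 1 / D ≤ |β p| ∧ |β p| ≤ D) →
        (∀ x ∈ Fintype.piFinset X, ∀ p, 1 ≤ q p → height T β f g p x ∈ Icc (T / D) (D * T)) →
        ENNReal.ofReal (c * Real.log T ^ (∑ p, q p ^ 2) * ∏ i, ((X i).card : ℝ)) ≤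
          ∑ x ∈ Fintype.piFinset X, ∏ p, (localSq N T (height T β f g p x)) ^ q p) ∧
      -- the mutual distances of the points of one finite set
      (∀ X : Finset (Fin d → ℝ), (∀ x ∈ X, ∀ l, 0 ≤ x l ∧ x l ≤ 1) →
        (∀ u : Fin d → ℝ, ∀ Y ⊆ X, (∀ x ∈ Y, ∀ l, |x l - u l| ≤ 1 / T) → (Y.card : ℝ) ≤ D) →
        T ^ (d + ε) ≤ (X.card : ℝ) ^ 2 →
        ENNReal.ofReal (c * Real.log T ^ (∑ p, q p ^ 2) * (X.card : ℝ) ^ k) ≤
          ∑ x ∈ Fintype.piFinset (fun _ : Fin k => X), ∏ p : Pairs k,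
            (localSq N T (T * (1 + ∑ l, (x p.1.1 l - x p.1.2 l) ^ 2))) ^ q p) := by
  have hloc : ∀ T t : ℝ, localSq N T t = Pool.Agent.R461.HM.loc 1 N T t := by
    intro T t
    unfold localSq Pool.Agent.R461.HM.loc
    simp only [mul_one]
  obtain ⟨c1, hc1, hm1⟩ := Pool.Agent.H86.PY.joint hd q N hε
  obtain ⟨c2, hc2, hm2⟩ := Pool.Agent.H86.PY.joint_finite hd q N hε
  refine ⟨min c1 c2, lt_min hc1 hc2, fun D hD => ?_⟩
  obtain ⟨T1, hT1e, hT1⟩ := hm1 D hD
  obtain ⟨T2, hT2e, hT2⟩ := hm2 D hD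
  have hdnn : (0:ℝ) ≤ d := Nat.cast_nonneg d
  have hdD : 1 ≤ D + d + 2 := by linarith
  obtain ⟨T3, hT3e, hT3⟩ := hm2 (D + d + 2) hdD
  refine ⟨max T1 (max T2 T3), fun T hT => ?_⟩
  have hTa : T1 ≤ T := (le_max_left _ _).trans hT
  have hTb : T2 ≤ T := ((le_max_left _ _).trans (le_max_right _ _)).trans hT
  have hTc : T3 ≤ T := ((le_max_right _ _).trans (le_max_right _ _)).trans hT
  have hT1' : 1 ≤ T := by
    have := Real.add_one_le_exp (1:ℝ)
    linarith [hT1e.trans hTa]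
  have hT0 : 0 < T := by linarith
  have hL : 0 ≤ Real.log T := Real.log_nonneg hT1'
  refine ⟨?_, ?_, ?_⟩
  · intro μ hμp hμ A hA0 hA hAA β f g hβ hf hg hht
    have h := hT1 T hTa μ hμp hμ A hA0 hA hAA β f g hβ hf hg hht
    refine le_trans (ENNReal.ofReal_le_ofReal ?_) (h.trans (le_of_eq ?_))
    · gcongr; exact min_le_left _ _
    · simp only [hloc]; rfl
  · intro X hX hXD hXc β f g hβ hht
    have h := hT2 T hTb X hX hXD hXc β f g hβ hht
    refine le_trans (ENNReal.ofReal_le_ofReal ?_) (h.trans (le_of_eq ?_))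
    · gcongr; exact min_le_right _ _
    · simp only [hloc]; rfl
  · intro X hX hXD hXc
    have hdist : ∀ x y : Fin d → ℝ, T * (-2 * (∑ l, x l * y l) + (1 + ∑ l, x l ^ 2) + ∑ l, y l ^ 2) =
        T * (1 + ∑ l, (x l - y l) ^ 2) := by
      intro x y
      congr 1
      have : ∀ l, (x l - y l) ^ 2 = x l ^ 2 + y l ^ 2 - 2 * (x l * y l) := fun l => by ring
      simp only [this]
      rw [Finset.sum_sub_distrib, Finset.sum_add_distrib, ← Finset.mul_sum]
      ring
    have h := hT3 T hTc (fun _ => X) (fun _ => hX)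
      (fun _ u Y hY hYu => (hXD u Y hY hYu).trans (by linarith))
      (fun p _ => by rw [← sq]; exact hXc) (fun _ => -2) (fun _ x => 1 + ∑ l, x l ^ 2) (fun _ x => ∑ l, x l ^ 2)
      (fun p _ => by
        have : (0:ℝ) ≤ d := Nat.cast_nonneg d
        rw [abs_neg, abs_two]
        constructor
        · rw [div_le_iff₀ (by linarith)]; linarith
        · linarith)
      (fun x hx p _ => by
        have hd0 : (0:ℝ) ≤ d := Nat.cast_nonneg d
        have hx1 := hX _ (Fintype.mem_piFinset.1 hx p.1.1)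
        have hx2 := hX _ (Fintype.mem_piFinset.1 hx p.1.2)
        have e : Pool.Agent.H86.PY.ht T (fun _ => -2) (fun _ x => 1 + ∑ l, x l ^ 2) (fun _ x => ∑ l, x l ^ 2) p x =
            T * (1 + ∑ l, (x p.1.1 l - x p.1.2 l) ^ 2) := hdist _ _
        rw [e]
        have h0 : 0 ≤ ∑ l, (x p.1.1 l - x p.1.2 l) ^ 2 := Finset.sum_nonneg fun l _ => sq_nonneg _
        have h1 : ∑ l, (x p.1.1 l - x p.1.2 l) ^ 2 ≤ d := by
          calc ∑ l, (x p.1.1 l - x p.1.2 l) ^ 2 ≤ ∑ l : Fin d, (1:ℝ) := by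
                refine Finset.sum_le_sum fun l _ => ?_
                have h2 := hx1 l
                have h3 := hx2 l
                have h4 : |x p.1.1 l - x p.1.2 l| ≤ 1 := by
                  rw [abs_le]; constructor <;> linarith
                have h5 := abs_le.1 h4
                nlinarith
            _ = d := by simp
        constructor
        · calc T / (D + d + 2) ≤ T := div_le_self hT0.le (by linarith)
            _ = T * (1 + 0) := by ring
            _ ≤ _ := mul_le_mul_of_nonneg_left (by linarith) hT0.le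
        · calc T * (1 + ∑ l, (x p.1.1 l - x p.1.2 l) ^ 2) ≤ T * (D + d + 2) :=
                mul_le_mul_of_nonneg_left (by linarith) hT0.le
            _ = _ := mul_comm _ _)
    simp only [Finset.prod_const, Finset.card_univ, Fintype.card_fin] at h
    refine le_trans (ENNReal.ofReal_le_ofReal ?_) (h.trans (le_of_eq ?_))
    · gcongr; exact min_le_right _ _
    · refine Finset.sum_congr rfl fun x _ => Finset.prod_congr rfl fun p _ => ?_
      rw [hloc]
      congr 2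
      exact hdist _ _

end Pool.Agent.Results.MP_56b8f5_nt.JointMomentsAtDistances
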