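import Pool.Agent.H4.LG.Win
import Pool.Agent.H4.SC.Lbt

set_option autoImplicit false

/-!
# The eighth moment and all other moments see fluctuations of every local linear statistic of the zeros

No hypothesis is made.  A set `S` of heights in `[T, 2T]` is called thick (with the constants `c₁`, `θ`) if it carries at least
the share `c₁` of the mean square of every Dirichlet polynomial `∑_{n ≤ M} b_n n^(-1/2-it)` with `M ≤ T^θ`.

1. Let `ψ` be bounded and measurable, zero outside a bounded interval, and `∫ ψ ≠ 0`.  The statistic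
`∑_ρ ψ(log T (γ - t))` over all nontrivial zeros `ρ = β + iγ` of zeta has the mean `(1/2π) ∫ ψ`.  There is `c > 0` such that the
set of the `t ∈ [T, 2T]` at which it is at least `c` larger than the mean is thick, and so is the set of the `t` at which it is
at least `c` smaller.
2. For every `Λ > 0` there is `η > 0` such that the set of the `t ∈ [T, 2T]` with at least `Λ + η` zeros of ordinate in
`(t, t + (Λ - η) 2π/log T]` is thick, and so is the set of the `t` with at most `Λ - η` zeros of ordinate in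
`(t, t + (Λ + η) 2π/log T]`.  For an integer `Λ = r ≥ 1` these are at least `r + 1` zeros within less than `r` mean spacings, and at
most `r - 1` zeros within more than `r` mean spacings: there are small and large `r`-th gaps relative to every Dirichlet
polynomial, for every `r`.
3. All these sets carry a lower bound of the order `T (log T)^(β²)` for the moment of order `2β` of zeta, for every real `β`; for
`β = 4` this is the order `T (log T)^16` of the eighth moment.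
-/

open Filter Topology MeasureTheory Complex Set

namespace Pool.Agent.Results.MP_56b8f5_nt.LocalStatistics

noncomputable section

/-- the Dirichlet polynomial with the coefficients `b` and length `M` -/
def D (M : ℕ) (b : ℕ → ℂ) (t : ℝ) : ℂ := ∑ n ∈ Finset.Icc 1 M, b n * (n : ℂ) ^ (-(1 / 2 + t * I))

/-- the measurable set `S ⊆ [T, 2T]` carries at least the share `c₁` of the mean square of every Dirichlet polynomial of length
at most `T^θ` -/
def Thick (c₁ θ T : ℝ) (S : Set ℝ) : Prop := MeasurableSet S ∧ S ⊆ Set.Icc T (2 * T) ∧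
  ∀ (M : ℕ) (b : ℕ → ℂ), (M : ℝ) ≤ T ^ θ → c₁ * (T * ∑ n ∈ Finset.Icc 1 M, ‖b n‖ ^ 2 / n) ≤ ∫ t in S, ‖D M b t‖ ^ 2

/-- the nontrivial zeros of zeta -/
def zeros : Set ℂ := {s : ℂ | riemannZeta s = 0 ∧ 0 < s.re ∧ s.re < 1}

/-- the local statistic `∑_ρ ψ(L (γ - t))`, over all nontrivial zeros with multiplicity -/
def stat (ψ : ℝ → ℝ) (L t : ℝ) : ℝ := ∑ᶠ s ∈ zeros, (analyticOrderNatAt riemannZeta s : ℝ) * ψ (L * (s.im - t))

/-- the number of the nontrivial zeros with ordinate in `(a, b]`, with multiplicity -/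
def count (a b : ℝ) : ℕ := ∑ᶠ s ∈ {s ∈ zeros | a < s.im ∧ s.im ≤ b}, analyticOrderNatAt riemannZeta s

/-- the `t ∈ [T, 2T]` at which the statistic exceeds its mean by at least `c` -/
def high (ψ : ℝ → ℝ) (c T : ℝ) : Set ℝ :=
  {t ∈ Set.Icc T (2 * T) | (∫ x, ψ x) / (2 * Real.pi) + c ≤ stat ψ (Real.log T) t}

/-- the `t ∈ [T, 2T]` at which the statistic is by at least `c` smaller than its mean -/
def low (ψ : ℝ → ℝ) (c T : ℝ) : Set ℝ :=
  {t ∈ Set.Icc T (2 * T) | stat ψ (Real.log T) t ≤ (∫ x, ψ x) / (2 * Real.pi) - c}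

/-- the `t ∈ [T, 2T]` with at least `Λ + η` zeros within `Λ - η` mean spacings -/
def rich (Λ η T : ℝ) : Set ℝ :=
  {t ∈ Set.Icc T (2 * T) | Λ + η ≤ (count t (t + (Λ - η) * (2 * Real.pi / Real.log T)) : ℝ)}

/-- the `t ∈ [T, 2T]` with at most `Λ - η` zeros within `Λ + η` mean spacings -/
def poor (Λ η T : ℝ) : Set ℝ :=
  {t ∈ Set.Icc T (2 * T) | (count t (t + (Λ + η) * (2 * Real.pi / Real.log T)) : ℝ) ≤ Λ - η}

/-- the sets `S(T)` carry moments of the full order, uniformly for bounded orders and for shifts `|h| ≤ T/2` -/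
def FullMoments (S : ℝ → Set ℝ) : Prop := ∀ A : ℝ, ∃ κ T₀ : ℝ, 0 < κ ∧ ∀ T : ℝ, T₀ ≤ T → ∀ β h : ℝ, |β| ≤ A → |h| ≤ T / 2 →
  ENNReal.ofReal (κ * T * Real.log T ^ (β ^ 2)) ≤ ∫⁻ t in S T, ENNReal.ofReal (‖riemannZeta (1 / 2 + ((t + h : ℝ) : ℂ) * I)‖ ^ (2 * β))

open Pool.Agent.H4.LG Pool.Agent.H4.SC
open Pool.Agent.Q97.UM (dp N2 mz)

/-- the integral over a set as an integral with an indicator function -/
lemma int_ind {T : ℝ} (hT : 0 ≤ T) {S : Set ℝ} (hS : MeasurableSet S) (hST : S ⊆ Set.Icc T (2 * T)) (f : ℝ → ℝ) :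
    ∫ t in T..(2 * T), S.indicator (fun _ => (1 : ℝ)) t * f t = ∫ t in S, f t := by
  have e : (fun t => S.indicator (fun _ => (1 : ℝ)) t * f t) = S.indicator f := by
    funext t
    by_cases h : t ∈ S
    · rw [Set.indicator_of_mem h, Set.indicator_of_mem h, one_mul]
    · rw [Set.indicator_of_notMem h, Set.indicator_of_notMem h, zero_mul]
  rw [e, intervalIntegral.integral_of_le (by linarith), ← integral_Icc_eq_integral_Ioc, setIntegral_indicator hS,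
    Set.inter_eq_self_of_subset_right hST]

/-- products of shifted values over thick sets -/
theorem products {A c₁ θ : ℝ} (hA : 1 ≤ A) (hc₁ : 0 < c₁) (hθ : 0 < θ) : ∃ δ κ T₀ : ℝ, 0 < δ ∧ δ < 1 ∧ 0 < κ ∧ ∀ T : ℝ, T₀ ≤ T →
    ∀ S : Set ℝ, Thick c₁ θ T S → ∀ (n : ℕ) (β h : Fin n → ℝ), ∑ j, |β j| ≤ A → (∀ j, |h j| ≤ T / 2) →
      ENNReal.ofReal (κ * T * Real.exp (∑ p ∈ (Finset.Icc 1 ⌊T ^ δ⌋₊).filter Nat.Prime,
        ‖∑ j, (β j : ℂ) * (p : ℂ) ^ (-(h j * I))‖ ^ 2 / p)) ≤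
          ∫⁻ t in S, ENNReal.ofReal (∏ j, ‖riemannZeta (1 / 2 + ((t + h j : ℝ) : ℂ) * I)‖ ^ (2 * β j)) := by
  obtain ⟨δ, κ, hδ, hδ1, hκ, h⟩ := lbt hA hc₁ hθ
  obtain ⟨T₀, hT₀⟩ := eventually_atTop.1 (h.and (eventually_ge_atTop 0))
  refine ⟨δ, κ, T₀, hδ, by linarith, hκ, fun T hT S hS n β hh hβ hhT => ?_⟩
  obtain ⟨g1, g2⟩ := hT₀ T hT
  obtain ⟨hSm, hST, hth⟩ := hS
  have h3 := g1 (S.indicator fun _ => (1 : ℝ)) (measurable_const.indicator hSm)
    (fun t => Set.indicator_nonneg (fun _ _ => zero_le_one) t)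
    (fun t => by
      by_cases ht : t ∈ S
      · rw [Set.indicator_of_mem ht]
      · rw [Set.indicator_of_notMem ht]; exact zero_le_one)
    (fun M hM b => by
      rw [int_ind g2 hSm hST]
      exact hth M b hM)
    n β hh hβ hhT
  refine h3.trans ?_
  rw [← lintegral_indicator measurableSet_Icc, ← lintegral_indicator hSm]
  refine lintegral_mono fun t => ?_
  by_cases ht : t ∈ S
  · rw [Set.indicator_of_mem (hST ht), Set.indicator_of_mem ht, Set.indicator_of_mem ht, one_mul]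
    exact le_rfl
  · rw [Set.indicator_of_notMem ht (f := fun t => ENNReal.ofReal (∏ j, ‖riemannZeta (1 / 2 + ((t + hh j : ℝ) : ℂ) * I)‖ ^ (2 * β j)))]
    by_cases ht2 : t ∈ Set.Icc T (2 * T)
    · rw [Set.indicator_of_mem ht2, Set.indicator_of_notMem ht, zero_mul, ENNReal.ofReal_zero]
    · rw [Set.indicator_of_notMem ht2]

/-- one value over thick sets -/
theorem oneValue {A c₁ θ : ℝ} (hA : 1 ≤ A) (hc₁ : 0 < c₁) (hθ : 0 < θ) : ∃ κ T₀ : ℝ, 0 < κ ∧ ∀ T : ℝ, T₀ ≤ T →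
    ∀ S : Set ℝ, Thick c₁ θ T S → ∀ β h : ℝ, |β| ≤ A → |h| ≤ T / 2 →
      ENNReal.ofReal (κ * T * Real.log T ^ (β ^ 2)) ≤
        ∫⁻ t in S, ENNReal.ofReal (‖riemannZeta (1 / 2 + ((t + h : ℝ) : ℂ) * I)‖ ^ (2 * β)) := by
  obtain ⟨δ, κ, T₀, hδ, hδ1, hκ, h⟩ := products hA hc₁ hθ
  obtain ⟨C, hC, hP⟩ := Pool.Agent.Q98.UM.prime_lower Pool.Agent.Q149.UM.t_MZ hδ hδ1.le
  obtain ⟨T₁, hT₁⟩ := eventually_atTop.1 (hP.and (Real.tendsto_log_atTop.eventually_ge_atTop 1))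
  refine ⟨κ * Real.exp (-(A ^ 2 * C)), max (max T₀ T₁) 1, by positivity, fun T hT S hS β hh hβ hhT => ?_⟩
  have hTa : T₀ ≤ T := (le_max_left _ _).trans ((le_max_left _ _).trans hT)
  have hTb : T₁ ≤ T := (le_max_right _ _).trans ((le_max_left _ _).trans hT)
  have hTc : 1 ≤ T := (le_max_right _ _).trans hT
  obtain ⟨g1, g2⟩ := hT₁ T hTb
  have h3 := h T hTa S hS 1 (fun _ => β) (fun _ => hh) (by rw [Fin.sum_univ_one]; exact hβ) (fun _ => hhT)
  simp only [Fin.prod_univ_one, Fin.sum_univ_one] at h3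
  refine le_trans (ENNReal.ofReal_le_ofReal ?_) h3
  have hL0 : 0 < Real.log T := by linarith
  have e1 : ∑ p ∈ (Finset.Icc 1 ⌊T ^ δ⌋₊).filter Nat.Prime, ‖(β : ℂ) * (p : ℂ) ^ (-((hh : ℂ) * I))‖ ^ 2 / (p : ℝ) =
      β ^ 2 * ∑ p ∈ (Finset.Icc 1 ⌊T ^ δ⌋₊).filter Nat.Prime, (1 : ℝ) / p := by
    rw [Finset.mul_sum]
    refine Finset.sum_congr rfl fun p hp => ?_
    rw [Finset.mem_filter, Finset.mem_Icc] at hp
    have hp0 : 0 < p := hp.1.1
    rw [norm_mul, Complex.norm_real, Real.norm_eq_abs, Complex.norm_natCast_cpow_of_pos hp0]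
    have : (-((hh : ℂ) * I)).re = 0 := by simp
    rw [this, Real.rpow_zero, mul_one, sq_abs]
    ring
  rw [e1]
  have hβ2 : β ^ 2 ≤ A ^ 2 := by
    rw [← sq_abs β]
    exact pow_le_pow_left₀ (abs_nonneg _) hβ 2
  have e2 : Real.log T ^ (β ^ 2) = Real.exp (β ^ 2 * Real.log (Real.log T)) := by
    rw [Real.rpow_def_of_pos hL0, mul_comm]
  have e3 : β ^ 2 * Real.log (Real.log T) - A ^ 2 * C ≤
      β ^ 2 * ∑ p ∈ (Finset.Icc 1 ⌊T ^ δ⌋₊).filter Nat.Prime, (1 : ℝ) / p := by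
    have u1 := mul_le_mul_of_nonneg_left g1 (sq_nonneg β)
    have u2 := mul_le_mul_of_nonneg_right hβ2 hC
    linarith
  calc κ * Real.exp (-(A ^ 2 * C)) * T * Real.log T ^ (β ^ 2)
      = κ * T * Real.exp (β ^ 2 * Real.log (Real.log T) - A ^ 2 * C) := by
        rw [e2, Real.exp_sub, Real.exp_neg]
        ring
    _ ≤ _ := mul_le_mul_of_nonneg_left (Real.exp_le_exp.mpr e3) (by positivity)

/-- thick sets carry full moments -/
lemma full {c₁ θ T₀ : ℝ} (hc₁ : 0 < c₁) (hθ : 0 < θ) {S : ℝ → Set ℝ} (h : ∀ T : ℝ, T₀ ≤ T → Thick c₁ θ T (S T)) : FullMoments S := by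
  intro A
  obtain ⟨κ, T₁, hκ, h7⟩ := oneValue (A := max A 1) (le_max_right _ _) hc₁ hθ
  exact ⟨κ, max T₀ T₁, hκ, fun T hT β hh hβ hhT =>
    h7 T ((le_max_right _ _).trans hT) _ (h T ((le_max_left _ _).trans hT)) β hh (hβ.trans (le_max_left _ _)) hhT⟩

lemma D_dp (M : ℕ) (b : ℕ → ℂ) (t : ℝ) : D M b t = dp M b t := rfl

lemma stat_st (ψ : ℝ → ℝ) (L t : ℝ) : stat ψ L t = st ψ L t := rfl

/-- the number of zeros is a statistic -/
lemma count_st {t L a : ℝ} (ht : 1 ≤ t) (hL : 0 < L) : (count t (t + a * (2 * Real.pi / L)) : ℝ) = st (ind 0 (2 * Real.pi * a)) L t := by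
  have hmem : ∀ s : ℂ, s ∈ H370.Zf riemannZeta t (t + a * (2 * Real.pi / L)) ↔
      s ∈ {s ∈ zeros | t < s.im ∧ s.im ≤ t + a * (2 * Real.pi / L)} := by
    intro s
    rw [H370.mem_Zf H370.good_zeta ht]
    exact ⟨fun h => ⟨⟨h.2.2.2.2, h.1, h.2.1⟩, h.2.2.1, h.2.2.2.1⟩, fun h => ⟨h.1.2.1, h.1.2.2, h.2.1, h.2.2, h.1.1⟩⟩
  have hwin : ∀ s : ℂ, L * (s.im - t) ∈ Set.Ioc 0 (2 * Real.pi * a) ↔ (t < s.im ∧ s.im ≤ t + a * (2 * Real.pi / L)) := by
    intro s
    have e : L * (t + a * (2 * Real.pi / L) - t) = 2 * Real.pi * a := by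
      field_simp
      ring
    constructor
    · rintro ⟨h1, h2⟩
      have h3 : 0 < s.im - t := (mul_pos_iff_of_pos_left hL).1 h1
      rw [← e] at h2
      have h4 := le_of_mul_le_mul_left h2 hL
      exact ⟨by linarith, by linarith⟩
    · rintro ⟨h1, h2⟩
      refine ⟨mul_pos hL (by linarith), ?_⟩
      rw [← e]
      exact mul_le_mul_of_nonneg_left (by linarith) hL.le
  have h1 : count t (t + a * (2 * Real.pi / L)) = ∑ s ∈ H370.Zf riemannZeta t (t + a * (2 * Real.pi / L)), analyticOrderNatAt riemannZeta s := by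
    unfold count
    refine finsum_mem_eq_sum_of_inter_support_eq _ ?_
    congr 1
    ext s
    rw [Finset.mem_coe]
    exact (hmem s).symm
  have h2 : st (ind 0 (2 * Real.pi * a)) L t =
      ∑ s ∈ H370.Zf riemannZeta t (t + a * (2 * Real.pi / L)), (analyticOrderNatAt riemannZeta s : ℝ) * ind 0 (2 * Real.pi * a) (L * (s.im - t)) := by
    unfold st
    refine finsum_mem_eq_sum_of_inter_support_eq _ ?_
    ext s
    simp only [Set.mem_inter_iff, Function.mem_support, Finset.mem_coe, hmem]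
    constructor
    · rintro ⟨h1, h2⟩
      refine ⟨⟨h1, (hwin s).1 ?_⟩, h2⟩
      by_contra hcon
      refine h2 ?_
      unfold ind
      rw [Set.indicator_of_notMem hcon, mul_zero]
    · rintro ⟨h1, h2⟩
      exact ⟨h1.1, h2⟩
  rw [h1, h2, Nat.cast_sum]
  refine Finset.sum_congr rfl fun s hs => ?_
  unfold ind
  rw [Set.indicator_of_mem ((hwin s).2 ((hmem s).1 hs).2), mul_one]

/-- the set of the heights in `[T, 2T]` with the statistic in a closed set, thick -/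
lemma thickOf {V Q : ℝ} {ψ : ℝ → ℝ} (hp : PF V Q ψ) {c₁ θ : ℝ} {P : Set ℝ} (hP : MeasurableSet P)
    (h : ∀ᶠ T : ℝ in atTop, ∀ N : ℕ, (N : ℝ) ≤ T ^ θ → ∀ b : ℕ → ℂ,
      c₁ * (T * N2 N b) ≤ ∫ t in {t : ℝ | t ∈ Set.Icc T (2 * T) ∧ st ψ (Real.log T) t ∈ P}, ‖dp N b t‖ ^ 2) :
    ∀ᶠ T : ℝ in atTop, Thick c₁ θ T {t : ℝ | t ∈ Set.Icc T (2 * T) ∧ st ψ (Real.log T) t ∈ P} := by
  filter_upwards [h, eventually_ge_atTop (16 : ℝ), Real.tendsto_log_atTop.eventually_ge_atTop V] with T h hT hV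
  exact ⟨st_meas hp hT hV hP, fun t ht => ht.1, fun M b hM => h M hM b⟩

/-- the windows -/
theorem windows {Λ : ℝ} (hΛ : 0 < Λ) : ∃ η c₁ θ T₀ : ℝ, 0 < η ∧ η < Λ ∧ 0 < c₁ ∧ 0 < θ ∧
    (∀ T : ℝ, T₀ ≤ T → Thick c₁ θ T (rich Λ η T) ∧ Thick c₁ θ T (poor Λ η T)) ∧ FullMoments (rich Λ η) ∧ FullMoments (poor Λ η) := by
  obtain ⟨η, c₁, θ, hη0, hη1, hc₁, hθ0, h1, h2⟩ := winS hΛ
  have a1 := thickOf (ind_pf le_rfl) measurableSet_Ici h1
  have a2 := thickOf (ind_pf le_rfl) measurableSet_Iic h2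
  obtain ⟨T₀, hT₀⟩ := eventually_atTop.1 ((a1.and a2).and (eventually_ge_atTop (16 : ℝ)))
  have b1 : ∀ T : ℝ, T₀ ≤ T → Thick c₁ θ T (rich Λ η T) := by
    intro T hT
    obtain ⟨⟨g1, g2⟩, hT16⟩ := hT₀ T hT
    have e : rich Λ η T = {t : ℝ | t ∈ Set.Icc T (2 * T) ∧ st (ind 0 (2 * Real.pi * (Λ - η))) (Real.log T) t ∈ Set.Ici (Λ + η)} := by
      unfold rich
      ext t
      simp only [Set.mem_ofPred_eq, Set.mem_Ici]
      refine and_congr_right fun h => ?_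
      rw [count_st (by linarith [h.1]) (Real.log_pos (by linarith))]
    rw [e]
    exact g1
  have b2 : ∀ T : ℝ, T₀ ≤ T → Thick c₁ θ T (poor Λ η T) := by
    intro T hT
    obtain ⟨⟨g1, g2⟩, hT16⟩ := hT₀ T hT
    have e : poor Λ η T = {t : ℝ | t ∈ Set.Icc T (2 * T) ∧ st (ind 0 (2 * Real.pi * (Λ + η))) (Real.log T) t ∈ Set.Iic (Λ - η)} := by
      unfold poor
      ext t
      simp only [Set.mem_ofPred_eq, Set.mem_Iic]
      refine and_congr_right fun h => ?_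
      rw [count_st (by linarith [h.1]) (Real.log_pos (by linarith))]
    rw [e]
    exact g2
  exact ⟨η, c₁, θ, T₀, hη0, hη1, hc₁, hθ0, fun T hT => ⟨b1 T hT, b2 T hT⟩, full hc₁ hθ0 b1, full hc₁ hθ0 b2⟩

/-- the eighth moment -/
lemma eighth {S : ℝ → Set ℝ} (hS : FullMoments S) : ∃ κ T₀ : ℝ, 0 < κ ∧ ∀ T : ℝ, T₀ ≤ T →
      ENNReal.ofReal (κ * T * Real.log T ^ 16) ≤ ∫⁻ t in S T, ENNReal.ofReal (‖riemannZeta (1 / 2 + t * I)‖ ^ 8) := by
  obtain ⟨κ, T₀, hκ, h⟩ := hS 4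
  refine ⟨κ, max T₀ 0, hκ, fun T hT => ?_⟩
  have h1 := h T ((le_max_left _ _).trans hT) 4 0 (by norm_num) (by
    rw [abs_zero]
    have := (le_max_right T₀ 0).trans hT
    linarith)
  have e1 : Real.log T ^ ((4 : ℝ) ^ 2) = Real.log T ^ (16 : ℕ) := by
    rw [← Real.rpow_natCast]
    norm_num
  rw [e1] at h1
  refine h1.trans (le_of_eq ?_)
  congr 1
  funext t
  rw [add_zero]
  congr 1
  rw [← Real.rpow_natCast]
  norm_num


/-- **The fluctuations of the local linear statistics of the zeros, relative to all Dirichlet polynomials and all moments.** -/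
theorem result :
    -- 1. all local linear statistics
    (∀ (V Q : ℝ) (ψ : ℝ → ℝ), Measurable ψ → (∀ x, |ψ x| ≤ Q) → (∀ x, V ≤ |x| → ψ x = 0) → ∫ x, ψ x ≠ 0 →
      ∃ c c₁ θ T₀ : ℝ, 0 < c ∧ 0 < c₁ ∧ 0 < θ ∧
        (∀ T : ℝ, T₀ ≤ T → Thick c₁ θ T (high ψ c T) ∧ Thick c₁ θ T (low ψ c T)) ∧
        FullMoments (high ψ c) ∧ FullMoments (low ψ c)) ∧
    -- 2. the number of zeros in windows of every length, with a margin in the length
    (∀ Λ : ℝ, 0 < Λ → ∃ η c₁ θ T₀ : ℝ, 0 < η ∧ η < Λ ∧ 0 < c₁ ∧ 0 < θ ∧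
        (∀ T : ℝ, T₀ ≤ T → Thick c₁ θ T (rich Λ η T) ∧ Thick c₁ θ T (poor Λ η T)) ∧
        FullMoments (rich Λ η) ∧ FullMoments (poor Λ η)) ∧
    -- 3. the eighth moment and the `r`-th gaps
    (∀ r : ℕ, 1 ≤ r → ∃ η κ T₀ : ℝ, 0 < η ∧ 0 < κ ∧ ∀ T : ℝ, T₀ ≤ T →
      ENNReal.ofReal (κ * T * Real.log T ^ 16) ≤
        ∫⁻ t in {t ∈ Set.Icc T (2 * T) | r + 1 ≤ count t (t + (r - η) * (2 * Real.pi / Real.log T))},
          ENNReal.ofReal (‖riemannZeta (1 / 2 + t * I)‖ ^ 8) ∧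
      ENNReal.ofReal (κ * T * Real.log T ^ 16) ≤
        ∫⁻ t in {t ∈ Set.Icc T (2 * T) | count t (t + (r + η) * (2 * Real.pi / Real.log T)) + 1 ≤ r},
          ENNReal.ofReal (‖riemannZeta (1 / 2 + t * I)‖ ^ 8)) := by
  refine ⟨fun V Q ψ h1 h2 h3 h4 => ?_, fun Λ hΛ => windows hΛ, fun r hr => ?_⟩
  · have hp : PF V Q ψ := ⟨h1, h2, h3⟩
    obtain ⟨c, c₁, θ, hc, hc₁, hθ0, hθ1, h⟩ := stTails hp h4
    have a1 := thickOf hp (c₁ := c₁) (θ := θ) (P := Set.Ici (mu ψ + c)) measurableSet_Ici (by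
      filter_upwards [h] with T h N hN b
      exact (h N hN b).1)
    have a2 := thickOf hp (c₁ := c₁) (θ := θ) (P := Set.Iic (mu ψ - c)) measurableSet_Iic (by
      filter_upwards [h] with T h N hN b
      exact (h N hN b).2)
    obtain ⟨T₀, hT₀⟩ := eventually_atTop.1 (a1.and a2)
    have b1 : ∀ T : ℝ, T₀ ≤ T → Thick c₁ θ T (high ψ c T) := fun T hT => (hT₀ T hT).1
    have b2 : ∀ T : ℝ, T₀ ≤ T → Thick c₁ θ T (low ψ c T) := fun T hT => (hT₀ T hT).2
    exact ⟨c, c₁, θ, T₀, hc, hc₁, hθ0, fun T hT => ⟨b1 T hT, b2 T hT⟩, full hc₁ hθ0 b1, full hc₁ hθ0 b2⟩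
  · have hr0 : (0 : ℝ) < r := by exact_mod_cast (show 0 < r by omega)
    obtain ⟨η, c₁, θ, T₀, hη0, hη1, hc₁, hθ0, -, h1, h2⟩ := windows hr0
    obtain ⟨κ₁, T₁, hκ₁, h3⟩ := eighth h1
    obtain ⟨κ₂, T₂, hκ₂, h4⟩ := eighth h2
    refine ⟨η, min κ₁ κ₂, max (max T₁ T₂) 1, hη0, lt_min hκ₁ hκ₂, fun T hT => ⟨?_, ?_⟩⟩
    · have hT1 : (1 : ℝ) ≤ T := (le_max_right _ _).trans hT
      have hL : 0 ≤ Real.log T ^ 16 := by positivity
      refine le_trans (ENNReal.ofReal_le_ofReal ?_) ((h3 T ((le_max_left _ _).trans ((le_max_left _ _).trans hT))).trans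
        (lintegral_mono_set fun t ht => ⟨ht.1, ?_⟩))
      · have := min_le_left κ₁ κ₂
        gcongr
      · have h5 : (r : ℝ) + η ≤ (count t (t + (r - η) * (2 * Real.pi / Real.log T)) : ℝ) := ht.2
        have h6 : (r : ℝ) < (count t (t + (r - η) * (2 * Real.pi / Real.log T)) : ℝ) := by linarith
        exact_mod_cast h6
    · have hT1 : (1 : ℝ) ≤ T := (le_max_right _ _).trans hT
      have hL : 0 ≤ Real.log T ^ 16 := by positivity
      refine le_trans (ENNReal.ofReal_le_ofReal ?_) ((h4 T ((le_max_right _ _).trans ((le_max_left _ _).trans hT))).trans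
        (lintegral_mono_set fun t ht => ⟨ht.1, ?_⟩))
      · have := min_le_right κ₁ κ₂
        gcongr
      · have h5 : (count t (t + (r + η) * (2 * Real.pi / Real.log T)) : ℝ) ≤ r - η := ht.2
        have h6 : (count t (t + (r + η) * (2 * Real.pi / Real.log T)) : ℝ) < r := by linarith
        exact_mod_cast h6

end

end Pool.Agent.Results.MP_56b8f5_nt.LocalStatistics
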